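import Pool.Agent.MP_162c54_lc.Main

set_option autoImplicit false
open Cardinal Pool.Agent.MP_162c54_lc

namespace Pool.Agent.Results.MP_162c54_lc.CountingCardinals

universe u

/-- If `ℵ₀ ≤ μ ≤ κ ≤ μ ^ ℵ₀` and `κ ^ μ < 2 ^ κ`, then every nuclear C*-algebra of density
character at most `κ` fails to contain some nuclear (even locally finite dimensional) C*-algebra of
density character at most `κ`; in particular there is no universal nuclear C*-algebra of density
character `κ`.  (With `μ = ℵ₀`, `κ = ℵ₁` the hypothesis is `2 ^ ℵ₀ < 2 ^ ℵ₁`.) -/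
theorem result (μ κ : Cardinal.{u}) (hμ : ℵ₀ ≤ μ) (hμκ : μ ≤ κ)
    (hκμ : κ ≤ μ ^ (ℵ₀ : Cardinal.{u})) (hlt : κ ^ μ < 2 ^ κ) :
    NoNuclearContainsAll κ ∧ ¬ ExistsUniversalNuclear κ := by
  have h : NoNuclearContainsAll κ :=
    fun A _ hA hD => misses_of_counting μ κ hμ hμκ hκμ hlt A hA hD
  exact ⟨h, h.not_universal⟩

end Pool.Agent.Results.MP_162c54_lc.CountingCardinals
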