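import Pool.Agent.MP_162c54_lc.Main

set_option autoImplicit false
open Cardinal Pool.Agent.MP_162c54_lc

namespace Pool.Agent.Results.MP_162c54_lc.PowerCardinals

universe u

/-- If `κ` is an infinite cardinal with `κ ^ ℵ₀ = κ`, then every nuclear C*-algebra of density
character at most `κ` fails to contain some nuclear (even locally finite dimensional) C*-algebra of
density character at most `κ`; in particular there is no universal nuclear C*-algebra of density
character `κ`. -/
theorem result (κ : Cardinal.{u}) (hκ : ℵ₀ ≤ κ) (hκω : κ ^ (ℵ₀ : Cardinal.{u}) = κ) :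
    NoNuclearContainsAll κ ∧ ¬ ExistsUniversalNuclear κ := by
  have h : NoNuclearContainsAll κ := fun A _ hA hD => misses_of_power κ hκ hκω A hA hD
  exact ⟨h, h.not_universal⟩

end Pool.Agent.Results.MP_162c54_lc.PowerCardinals
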