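import Pool.Agent.MP_162c54_lc.RegularPow

set_option autoImplicit false
open Cardinal Pool.Agent.MP_162c54_lc

namespace Pool.Agent.Results.MP_162c54_lc.RegularCardinals

universe u

/-- Let `κ > ℵ₁` be a regular cardinal such that `μ ^ ℵ₀ ≤ max κ (2 ^ ℵ₀)` for every `μ < κ` of
cofinality `ω` (in ZFC this holds for all regular `κ < 2 ^ ℵ₀` and for all `ℵ_n`; under the singular
cardinals hypothesis it holds for all regular `κ`).  Then every nuclear C*-algebra of density
character at most `κ` fails to contain some nuclear (even locally finite dimensional) C*-algebra of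
density character at most `κ`; in particular there is no universal nuclear C*-algebra of density
character `κ`. -/
theorem result (κ : Cardinal.{u}) (hreg : κ.IsRegular) (h1 : ℵ₁ < κ)
    (h : ∀ μ < κ, μ.ord.cof = ℵ₀ → μ ^ (ℵ₀ : Cardinal.{u}) ≤ max κ (2 ^ (ℵ₀ : Cardinal.{u}))) :
    NoNuclearContainsAll κ ∧ ¬ ExistsUniversalNuclear κ :=
  ⟨regular_case κ hreg h1 h, (regular_case κ hreg h1 h).not_universal⟩

end Pool.Agent.Results.MP_162c54_lc.RegularCardinals
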