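import Pool.Agent.UNA.F3

set_option autoImplicit false
open Cardinal Pool.Agent.MP_162c54_lc Pool.Agent.UNA

namespace Pool.Agent.Results.MP_162c54_lc.StronglyCompact

universe u

/-- Let `χ > ℵ₀` and `κ ≥ χ` be cardinals such that every set `I` of size at most `κ` carries a
countably complete fine ultrafilter on its subsets of size less than `χ` (for example a strongly
compact `χ`) and `2 ^ ν ≤ κ` for all `ν < χ`.  If `κ` is a strong limit cardinal above `χ` or has
uncountable cofinality, then there is a universal nuclear C*-algebra of density character `κ` if and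
only if `κ` has cofinality `ω`. -/
theorem result (κ χ : Cardinal.{u}) (hχ0 : ℵ₀ < χ) (hχ : χ ≤ κ)
    (hf : ∀ I : Type u, #I ≤ κ → HasFine χ I) (h2 : ∀ ν < χ, 2 ^ ν ≤ κ)
    (hκ : (κ.IsStrongLimit ∧ χ < κ) ∨ ℵ₀ < κ.ord.cof) :
    ExistsUniversalNuclear κ ↔ κ.ord.cof = ℵ₀ :=
  dichotomy hχ0 hf hχ h2 hκ

end Pool.Agent.Results.MP_162c54_lc.StronglyCompact
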